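import Mathlib
import Pool.Agent.H524R2.Forster

/-! Clusters in radially isotropic position. -/

set_option autoImplicit false

namespace Pool.Agent.N11.TVK

open Matrix Finset

section

variable {X : Type*} [Fintype X] {D : ℕ}

theorem dot_sq_le_one {v w : Fin D → ℝ} (hv : v ⬝ᵥ v = 1) (hw : w ⬝ᵥ w = 1) :
    (w ⬝ᵥ v) ^ 2 ≤ 1 := by
  have h := Finset.sum_mul_sq_le_sq_mul_sq (univ : Finset (Fin D)) w v
  have h1 : ∑ i, w i ^ 2 = 1 := by
    rw [← hw]; simp [dotProduct, sq]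
  have h2 : ∑ i, v i ^ 2 = 1 := by
    rw [← hv]; simp [dotProduct, sq]
  rw [h1, h2, one_mul] at h
  exact h

theorem coord_le_one {v : Fin D → ℝ} (hv : v ⬝ᵥ v = 1) (i : Fin D) : |v i| ≤ 1 := by
  have h2 : ∑ i, v i ^ 2 = 1 := by
    rw [← hv]; simp [dotProduct, sq]
  have h3 : v i ^ 2 ≤ 1 := by
    rw [← h2]
    exact Finset.single_le_sum (f := fun i => v i ^ 2) (fun i _ => sq_nonneg _) (mem_univ i)
  exact abs_le_one_iff_mul_self_le_one.2 (by nlinarith)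

/-- many vectors are far from the hyperplane orthogonal to `v`. -/
theorem many (w : X → Fin D → ℝ) (hw : ∀ x, w x ⬝ᵥ w x = 1) (v : Fin D → ℝ) (hv : v ⬝ᵥ v = 1)
    (h : (1 / 2 : ℝ) * Fintype.card X ≤ D * ∑ x, (w x ⬝ᵥ v) ^ 2) (hD : 0 < D) :
    (Fintype.card X : ℝ) ≤
      4 * D * (univ.filter fun x => 1 / (2 * D : ℝ) ≤ |v ⬝ᵥ w x|).card := by
  classical
  have hD1 : (1 : ℝ) ≤ D := by exact_mod_cast hD
  have key : ∀ x, (w x ⬝ᵥ v) ^ 2 ≤
      (if 1 / (2 * D : ℝ) ≤ |v ⬝ᵥ w x| then (1 : ℝ) else 0) + 1 / (4 * D : ℝ) := by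
    intro x
    split_ifs with hx
    · have := dot_sq_le_one hv (hw x)
      have h2 : (0 : ℝ) ≤ 1 / (4 * D) := by positivity
      linarith
    · push Not at hx
      rw [dotProduct_comm] at hx
      have h1 : (w x ⬝ᵥ v) ^ 2 ≤ (1 / (2 * D : ℝ)) ^ 2 := by
        rw [← sq_abs]
        exact pow_le_pow_left₀ (abs_nonneg _) hx.le 2
      have h2 : (1 / (2 * D : ℝ)) ^ 2 ≤ 1 / (4 * D) := by
        rw [div_pow, one_pow]
        apply div_le_div_of_nonneg_left (by norm_num) (by positivity)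
        nlinarith
      linarith
  have hsum := Finset.sum_le_sum (fun x (_ : x ∈ (univ : Finset X)) => key x)
  rw [Finset.sum_add_distrib, Finset.sum_ite, Finset.sum_const_zero, add_zero,
    Finset.sum_const, Finset.sum_const, nsmul_eq_mul, mul_one, nsmul_eq_mul, Finset.card_univ]
    at hsum
  have h3 := mul_le_mul_of_nonneg_left hsum (by positivity : (0 : ℝ) ≤ D)
  have h4 : (D : ℝ) * ((Fintype.card X : ℝ) * (1 / (4 * D))) = Fintype.card X / 4 := by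
    field_simp
  rw [mul_add, h4] at h3
  linarith

theorem step (w : X → Fin D → ℝ) (hw : ∀ x, w x ⬝ᵥ w x = 1) (hD : 0 < D)
    (hiso : ∀ v : Fin D → ℝ, v ⬝ᵥ v = 1 →
      (1 / 2 : ℝ) * Fintype.card X ≤ D * ∑ x, (w x ⬝ᵥ v) ^ 2)
    (Z : Finset (Fin D → ℝ)) (δ : ℝ)
    (hδ2 : 2 * D * δ ≤ 1 / (4 * D : ℝ))
    (hZ : ∀ y : Fin D → ℝ, y ⬝ᵥ y = 1 → ∃ z ∈ Z, dist y z < δ) (N : ℕ)
    (hn : 4 * D * (Z.card * N) < Fintype.card X) (v₀ : Fin D → ℝ) (hv₀ : v₀ ⬝ᵥ v₀ = 1) :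
    ∃ v z : Fin D → ℝ, v ⬝ᵥ v = 1 ∧ (∀ y : Fin D → ℝ, v₀ ⬝ᵥ y = 0 → v ⬝ᵥ y = 0) ∧
      N ≤ (univ.filter fun x => dist (w x) z < δ).card ∧
      ∀ y : Fin D → ℝ, dist y z < δ → 1 / (4 * D : ℝ) ≤ v ⬝ᵥ y := by
  classical
  set G := univ.filter fun x => 1 / (2 * D : ℝ) ≤ |v₀ ⬝ᵥ w x| with hG
  have hG1 := many w hw v₀ hv₀ (hiso v₀ hv₀) hD
  have hex : ∃ z ∈ Z, N ≤ (G.filter fun x => dist (w x) z < δ).card ∧
      (G.filter fun x => dist (w x) z < δ).Nonempty := by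
    by_contra hcon
    push Not at hcon
    have h1 : G ⊆ Z.biUnion fun z => G.filter fun x => dist (w x) z < δ := by
      intro x hx
      obtain ⟨z, hz, hxz⟩ := hZ (w x) (hw x)
      exact mem_biUnion.2 ⟨z, hz, mem_filter.2 ⟨hx, hxz⟩⟩
    have h2 : G.card ≤ Z.card * N := by
      calc G.card ≤ _ := card_le_card h1
        _ ≤ ∑ z ∈ Z, (G.filter fun x => dist (w x) z < δ).card := card_biUnion_le
        _ ≤ ∑ z ∈ Z, N := by
          refine sum_le_sum fun z hz => ?_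
          by_contra hlt
          push Not at hlt
          have := hcon z hz hlt.le
          rw [this, card_empty] at hlt
          omega
        _ = _ := by rw [sum_const, smul_eq_mul]
    have h3 : (Fintype.card X : ℝ) ≤ 4 * D * (Z.card * N) := by
      refine hG1.trans ?_
      have h4 : (G.card : ℝ) ≤ Z.card * N := by exact_mod_cast h2
      exact mul_le_mul_of_nonneg_left h4 (by positivity)
    have h5 : (4 * D * (Z.card * N) : ℝ) < Fintype.card X := by exact_mod_cast hn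
    linarith
  obtain ⟨z, hz, hN, x₀, hx₀⟩ := hex
  rw [mem_filter, hG, mem_filter] at hx₀
  obtain ⟨⟨-, hx1⟩, hx2⟩ := hx₀
  -- two points near z
  have hclose : ∀ y : Fin D → ℝ, dist y z < δ → |v₀ ⬝ᵥ y - v₀ ⬝ᵥ w x₀| ≤ 1 / (4 * D : ℝ) := by
    intro y hy
    refine le_trans ?_ hδ2
    have hd : dist y (w x₀) ≤ 2 * δ := by
      have := dist_triangle y z (w x₀)
      rw [dist_comm z] at this
      linarith
    rw [← dotProduct_sub, dotProduct]
    calc |∑ i, v₀ i * (y - w x₀) i| ≤ ∑ i, |v₀ i * (y - w x₀) i| := abs_sum_le_sum_abs _ _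
      _ ≤ ∑ i : Fin D, 2 * δ := by
        refine sum_le_sum fun i _ => ?_
        rw [abs_mul]
        have h1 := coord_le_one hv₀ i
        have h2 : |(y - w x₀) i| ≤ 2 * δ := by
          have h3 := dist_le_pi_dist y (w x₀) i
          rw [Real.dist_eq] at h3
          exact h3.trans hd
        calc |v₀ i| * |(y - w x₀) i| ≤ 1 * |(y - w x₀) i| :=
              mul_le_mul_of_nonneg_right h1 (abs_nonneg _)
          _ ≤ _ := by rw [one_mul]; exact h2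
      _ = 2 * D * δ := by
        rw [sum_const, card_univ, Fintype.card_fin, nsmul_eq_mul]; ring
  have hDpos : (0 : ℝ) < D := by exact_mod_cast hD
  have h24 : 1 / (2 * D : ℝ) = 1 / (4 * D) + 1 / (4 * D) := by field_simp; norm_num
  have hcard : N ≤ (univ.filter fun x => dist (w x) z < δ).card :=
    hN.trans (card_le_card (filter_subset_filter _ (subset_univ _)))
  rcases le_or_gt 0 (v₀ ⬝ᵥ w x₀) with hs | hs
  · rw [abs_of_nonneg hs] at hx1
    refine ⟨v₀, z, hv₀, fun y hy => hy, hcard, fun y hy => ?_⟩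
    have := (abs_le.1 (hclose y hy)).1
    linarith
  · rw [abs_of_neg hs] at hx1
    refine ⟨-v₀, z, ?_, fun y hy => ?_, hcard, fun y hy => ?_⟩
    · simpa using hv₀
    · simpa using hy
    · have := (abs_le.1 (hclose y hy)).2
      rw [neg_dotProduct]
      linarith

theorem exists_unit_orth (k : ℕ) (hk : k < D) (z : ℕ → Fin D → ℝ) :
    ∃ v : Fin D → ℝ, v ⬝ᵥ v = 1 ∧ ∀ i < k, v ⬝ᵥ z i = 0 := by
  obtain ⟨L, hL⟩ : ∃ L : (Fin D → ℝ) →ₗ[ℝ] (Fin k → ℝ), ∀ v i, L v i = z i ⬝ᵥ v :=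
    ⟨Matrix.mulVecLin (Matrix.of fun i : Fin k => z i), fun v i => rfl⟩
  have hker : LinearMap.ker L ≠ ⊥ := by
    apply LinearMap.ker_ne_bot_of_finrank_lt
    simpa using hk
  obtain ⟨v, hv, hv0⟩ := (Submodule.ne_bot_iff _).1 hker
  have hpos : 0 < v ⬝ᵥ v := Pool.Agent.H524R2.dot_self_pos hv0
  refine ⟨(Real.sqrt (v ⬝ᵥ v))⁻¹ • v, ?_, fun i hi => ?_⟩
  · rw [smul_dotProduct, dotProduct_smul, smul_eq_mul, smul_eq_mul, ← mul_assoc, ← mul_inv,
      Real.mul_self_sqrt hpos.le, inv_mul_cancel₀ hpos.ne']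
  · have h1 : z i ⬝ᵥ v = 0 := by
      have := congrFun (LinearMap.mem_ker.1 hv) ⟨i, hi⟩
      rw [hL] at this
      exact this
    rw [smul_dotProduct, dotProduct_comm v (z i), h1, smul_zero]

theorem iterate (w : X → Fin D → ℝ) (hw : ∀ x, w x ⬝ᵥ w x = 1) (hD : 0 < D)
    (hiso : ∀ v : Fin D → ℝ, v ⬝ᵥ v = 1 →
      (1 / 2 : ℝ) * Fintype.card X ≤ D * ∑ x, (w x ⬝ᵥ v) ^ 2)
    (Z : Finset (Fin D → ℝ)) (δ : ℝ)
    (hδ2 : 2 * D * δ ≤ 1 / (4 * D : ℝ))
    (hZ : ∀ y : Fin D → ℝ, y ⬝ᵥ y = 1 → ∃ z ∈ Z, dist y z < δ) (N : ℕ)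
    (hn : 4 * D * (Z.card * N) < Fintype.card X) (k : ℕ) (hk : k ≤ D) :
    ∃ v z : ℕ → Fin D → ℝ, ∀ j < k, v j ⬝ᵥ v j = 1 ∧
      N ≤ (univ.filter fun x => dist (w x) (z j) < δ).card ∧
      (∀ y : Fin D → ℝ, dist y (z j) < δ → 1 / (4 * D : ℝ) ≤ v j ⬝ᵥ y) ∧
      ∀ i < j, v j ⬝ᵥ z i = 0 := by
  induction k with
  | zero => exact ⟨fun _ => 0, fun _ => 0, fun j hj => absurd hj (by omega)⟩
  | succ k ih =>
    obtain ⟨v, z, hvz⟩ := ih (by omega)
    obtain ⟨v₀, hv₀, hv₁⟩ := exists_unit_orth k (by omega) z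
    obtain ⟨v', z', h1, h2, h3, h4⟩ := step w hw hD hiso Z δ hδ2 hZ N hn v₀ hv₀
    refine ⟨Function.update v k v', Function.update z k z', fun j hj => ?_⟩
    rcases Nat.lt_succ_iff_lt_or_eq.1 hj with hj' | rfl
    · rw [Function.update_of_ne hj'.ne, Function.update_of_ne hj'.ne]
      obtain ⟨a1, a2, a3, a4⟩ := hvz j hj'
      refine ⟨a1, a2, a3, fun i hi => ?_⟩
      rw [Function.update_of_ne (by omega)]
      exact a4 i hi
    · rw [Function.update_self, Function.update_self]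
      refine ⟨h1, h3, h4, fun i hi => ?_⟩
      rw [Function.update_of_ne (by omega)]
      exact h2 _ (hv₁ i hi)

end

theorem abs_dot_le {D : ℕ} {v y : Fin D → ℝ} {r : ℝ} (hv : v ⬝ᵥ v = 1) (hy : ∀ i, |y i| ≤ r) :
    |v ⬝ᵥ y| ≤ D * r := by
  rw [dotProduct]
  calc |∑ i, v i * y i| ≤ ∑ i, |v i * y i| := abs_sum_le_sum_abs _ _
    _ ≤ ∑ i : Fin D, r := by
      refine sum_le_sum fun i _ => ?_
      rw [abs_mul]
      calc |v i| * |y i| ≤ 1 * |y i| :=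
            mul_le_mul_of_nonneg_right (coord_le_one hv i) (abs_nonneg _)
        _ ≤ _ := by rw [one_mul]; exact hy i
    _ = D * r := by
      rw [sum_const, card_univ, Fintype.card_fin, nsmul_eq_mul]

theorem exists_net (D : ℕ) (δ : ℝ) (hδ : 0 < δ) :
    ∃ Z : Finset (Fin D → ℝ), ∀ y : Fin D → ℝ, y ⬝ᵥ y = 1 → ∃ z ∈ Z, dist y z < δ := by
  obtain ⟨t, -, ht, hcov⟩ := (isCompact_closedBall (0 : Fin D → ℝ) 1).finite_cover_balls hδ
  refine ⟨ht.toFinset, fun y hy => ?_⟩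
  have hy1 : y ∈ Metric.closedBall (0 : Fin D → ℝ) 1 := by
    rw [mem_closedBall_zero_iff, pi_norm_le_iff_of_nonneg zero_le_one]
    exact fun i => coord_le_one hy i
  obtain ⟨z, hz, hyz⟩ := Set.mem_iUnion₂.1 (hcov hy1)
  exact ⟨z, ht.mem_toFinset.2 hz, hyz⟩

theorem cluster (D N : ℕ) (hD : 0 < D) (M : ℝ) (hM : 1 ≤ M) :
    ∃ n₀ : ℕ, ∀ (X : Type) [Fintype X] (u : X → Fin D → ℝ),
      (∀ f : Fin D → X, Function.Injective f → Matrix.det (Matrix.of fun j => u (f j)) ≠ 0) →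
      n₀ < Fintype.card X →
      ∃ (θ : Fin D → Fin D → ℝ) (B : Fin D → Finset X),
        (∀ b, N ≤ (B b).card) ∧
        ∀ b, ∀ x ∈ B b, 0 < θ b ⬝ᵥ u x ∧ ∀ j ≠ b, M * |θ j ⬝ᵥ u x| ≤ θ b ⬝ᵥ u x := by
  classical
  have hDpos : (0 : ℝ) < D := by exact_mod_cast hD
  have hD1 : (1 : ℝ) ≤ D := by exact_mod_cast hD
  have hMpos : 0 < M := by linarith
  set c : ℝ := 1 / (4 * D) with hc
  have hc0 : 0 < c := by positivity
  set l : ℝ := M * D / c with hl
  have hl1 : 1 ≤ l := by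
    rw [hl, hc]
    have : M * D / (1 / (4 * D)) = M * D * (4 * D) := by field_simp
    rw [this]
    nlinarith [mul_le_mul hM hD1 zero_le_one hMpos.le]
  have hl0 : 0 < l := by linarith
  set δ : ℝ := c / (2 * M * D * l ^ D) with hδ
  have hδ0 : 0 < δ := by positivity
  have hlD : 1 ≤ l ^ D := one_le_pow₀ hl1
  have hδ2 : 2 * D * δ ≤ 1 / (4 * D : ℝ) := by
    rw [← hc, hδ]
    have : 2 * D * (c / (2 * M * D * l ^ D)) = c / (M * l ^ D) := by field_simp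
    rw [this]
    exact div_le_self hc0.le (one_le_mul_of_one_le_of_one_le hM hlD)
  obtain ⟨Z, hZ⟩ := exists_net D δ hδ0
  refine ⟨max D (4 * D * (Z.card * N)), fun X _ u hu hX => ?_⟩
  have hXD : D < Fintype.card X := lt_of_le_of_lt (le_max_left _ _) hX
  have hXn : 4 * D * (Z.card * N) < Fintype.card X := lt_of_le_of_lt (le_max_right _ _) hX
  -- rotations
  set n := Fintype.card X with hn
  have : NeZero n := ⟨by omega⟩
  let e : X ≃ Fin n := Fintype.equivFin X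
  let σ : Fin D → Equiv.Perm X := fun j =>
    (e.trans (Equiv.addRight (Fin.castLE hXD.le j))).trans e.symm
  have hσ : ∀ x, Function.Injective fun j => σ j x := by
    intro x i j hij
    have h1 : e.symm (e x + Fin.castLE hXD.le i) = e.symm (e x + Fin.castLE hXD.le j) := hij
    have h2 := add_left_cancel (e.symm.injective h1)
    exact Fin.castLE_injective _ h2
  have hu0 : ∀ x, u x ≠ 0 := by
    intro x hx
    apply hu (fun j => σ j (( σ ⟨0, hD⟩).symm x)) (hσ _)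
    apply Matrix.det_eq_zero_of_row_eq_zero ⟨0, hD⟩
    intro j
    simp [hx]
  obtain ⟨A, hA, hiso⟩ := Pool.Agent.H524R2.exists_isotropic u hu0 σ
    (fun x => hu _ (hσ x)) (by omega) (1 / 2) (by norm_num)
  have hpos : ∀ x, 0 < Pool.Agent.H524R2.nrm u A x := fun x =>
    Pool.Agent.H524R2.dot_self_pos (Pool.Agent.H524R2.mulVec_ne_zero hA (hu0 x))
  set s : X → ℝ := fun x => Real.sqrt (Pool.Agent.H524R2.nrm u A x) with hs
  have hspos : ∀ x, 0 < s x := fun x => Real.sqrt_pos.2 (hpos x)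
  have hss : ∀ x, s x * s x = Pool.Agent.H524R2.nrm u A x := fun x =>
    Real.mul_self_sqrt (hpos x).le
  set w : X → Fin D → ℝ := fun x => (s x)⁻¹ • (A *ᵥ u x) with hwdef
  have hw : ∀ x, w x ⬝ᵥ w x = 1 := by
    intro x
    show ((s x)⁻¹ • (A *ᵥ u x)) ⬝ᵥ ((s x)⁻¹ • (A *ᵥ u x)) = 1
    rw [smul_dotProduct, dotProduct_smul, smul_eq_mul, smul_eq_mul]
    have : (A *ᵥ u x) ⬝ᵥ (A *ᵥ u x) = s x * s x := (hss x).symm
    rw [this]
    have := (hspos x).ne'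
    field_simp
  have hsw : ∀ x, A *ᵥ u x = s x • w x := by
    intro x
    show A *ᵥ u x = s x • ((s x)⁻¹ • (A *ᵥ u x))
    rw [smul_smul, mul_inv_cancel₀ (hspos x).ne', one_smul]
  have hiso' : ∀ v : Fin D → ℝ, v ⬝ᵥ v = 1 →
      (1 / 2 : ℝ) * Fintype.card X ≤ D * ∑ x, (w x ⬝ᵥ v) ^ 2 := by
    intro v hv
    have h1 := hiso v hv
    have h2 : ∀ x, ((A *ᵥ u x) ⬝ᵥ v) ^ 2 / Pool.Agent.H524R2.nrm u A x = (w x ⬝ᵥ v) ^ 2 := by
      intro x
      rw [hsw, smul_dotProduct, smul_eq_mul, ← hss x]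
      have := (hspos x).ne'
      field_simp
    simp_rw [h2] at h1
    calc (1 / 2 : ℝ) * Fintype.card X = (1 - 1 / 2) * Fintype.card X := by norm_num
      _ ≤ _ := h1
  obtain ⟨v, z, hvz⟩ := iterate w hw hD hiso' Z δ hδ2 hZ N hXn D le_rfl
  -- the functionals
  have hfun : ∀ (j : ℕ) (x : X), (l ^ j • (v j ᵥ* A)) ⬝ᵥ u x = s x * (l ^ j * (v j ⬝ᵥ w x)) := by
    intro j x
    rw [smul_dotProduct, ← Matrix.dotProduct_mulVec, hsw, dotProduct_smul, smul_eq_mul,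
      smul_eq_mul]
    ring
  refine ⟨fun j => l ^ (j : ℕ) • (v j ᵥ* A), fun b => univ.filter fun x => dist (w x) (z b) < δ,
    fun b => (hvz b b.2).2.1, fun b x hx => ?_⟩
  rw [mem_filter] at hx
  obtain ⟨b1, b2, b3, b4⟩ := hvz b b.2
  have hb := b3 (w x) hx.2
  rw [← hc] at hb
  have hlb : 0 < l ^ (b : ℕ) := by positivity
  refine ⟨?_, fun j hj => ?_⟩
  · rw [hfun]
    have := hspos x
    have : 0 < v b ⬝ᵥ w x := by linarith
    positivity
  · rw [hfun, hfun, abs_mul, abs_of_pos (hspos x), ← mul_assoc, mul_comm M, mul_assoc]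
    refine mul_le_mul_of_nonneg_left ?_ (hspos x).le
    have hlj : 0 < l ^ (j : ℕ) := by positivity
    rw [abs_mul, abs_of_pos hlj]
    have hbb : l ^ (b : ℕ) * c ≤ l ^ (b : ℕ) * (v b ⬝ᵥ w x) :=
      mul_le_mul_of_nonneg_left hb hlb.le
    refine le_trans ?_ hbb
    obtain ⟨j1, j2, j3, j4⟩ := hvz j j.2
    rcases lt_or_gt_of_ne (fun h => hj (Fin.ext h) : (j : ℕ) ≠ b) with hjb | hjb
    · have h1 : |v j ⬝ᵥ w x| ≤ D * 1 := abs_dot_le j1 (coord_le_one (hw x))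
      have h2 : l ^ (b : ℕ) = l ^ (j : ℕ) * l ^ ((b : ℕ) - j) := by
        rw [← pow_add]; congr 1; omega
      have h3 : l ≤ l ^ ((b : ℕ) - j) := by
        calc l = l ^ 1 := (pow_one l).symm
          _ ≤ _ := pow_le_pow_right₀ hl1 (by omega)
      have h4 : M * D = l * c := by rw [hl]; field_simp
      calc M * (l ^ (j : ℕ) * |v j ⬝ᵥ w x|) ≤ M * (l ^ (j : ℕ) * (D * 1)) := by gcongr
        _ = l ^ (j : ℕ) * l * c := by rw [mul_one]; linear_combination l ^ (j : ℕ) * h4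
        _ ≤ l ^ (j : ℕ) * l ^ ((b : ℕ) - j) * c := by gcongr
        _ = _ := by rw [h2]
    · have h1 : |v j ⬝ᵥ w x| ≤ D * δ := by
        have h2 : v j ⬝ᵥ w x = v j ⬝ᵥ (w x - z b) := by
          rw [dotProduct_sub, j4 b hjb, sub_zero]
        rw [h2]
        refine abs_dot_le j1 fun i => ?_
        have h3 := dist_le_pi_dist (w x) (z b) i
        rw [Real.dist_eq] at h3
        exact h3.trans hx.2.le
      have h5 : l ^ (j : ℕ) ≤ l ^ D := pow_le_pow_right₀ hl1 j.2.le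
      have h6 : 1 ≤ l ^ (b : ℕ) := one_le_pow₀ hl1
      calc M * (l ^ (j : ℕ) * |v j ⬝ᵥ w x|) ≤ M * (l ^ D * (D * δ)) := by gcongr
        _ = c / 2 := by rw [hδ]; field_simp
        _ ≤ c := by linarith
        _ ≤ l ^ (b : ℕ) * c := by nlinarith

end Pool.Agent.N11.TVK
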