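import Mathlib
import Pool.Agent.N11.TVK.Cluster
import Pool.Agent.Helper873.Birch.Main

/-! Every finite simplicial complex is a Tverberg complex. -/

set_option autoImplicit false

namespace Pool.Agent.N11.TVK

open Matrix Finset

/-- no `d + 1` points of `S` lie on a common affine hyperplane -/
def GenPos {d : ℕ} (S : Finset (EuclideanSpace ℝ (Fin d))) : Prop :=
  ∀ (a : EuclideanSpace ℝ (Fin d)) (c : ℝ), a ≠ 0 →
    ∀ T : Finset (EuclideanSpace ℝ (Fin d)), T ⊆ S → T.card = d + 1 → ∃ p ∈ T, inner ℝ a p ≠ c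

/-- the lifted point `(p, 1)` -/
noncomputable def lift {d : ℕ} : EuclideanSpace ℝ (Fin d) →ᵃ[ℝ] (Fin (d + 1) → ℝ) where
  toFun p := Fin.snoc (α := fun _ => ℝ) (fun i => p i) 1
  linear :=
    { toFun := fun p => Fin.snoc (α := fun _ => ℝ) (fun i => p i) 0
      map_add' := fun p q => by
        ext i
        refine Fin.lastCases ?_ (fun i => ?_) i <;> simp
      map_smul' := fun r p => by
        ext i
        refine Fin.lastCases ?_ (fun i => ?_) i <;> simp }
  map_vadd' := fun p v => by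
    ext i
    refine Fin.lastCases ?_ (fun i => ?_) i <;> simp

theorem lift_castSucc {d : ℕ} (p : EuclideanSpace ℝ (Fin d)) (i : Fin d) :
    lift p i.castSucc = p i := by
  show Fin.snoc (α := fun _ => ℝ) (fun i => p i) 1 i.castSucc = p i
  simp

theorem lift_last {d : ℕ} (p : EuclideanSpace ℝ (Fin d)) : lift p (Fin.last d) = 1 := by
  show Fin.snoc (α := fun _ => ℝ) (fun i => p i) 1 (Fin.last d) = 1
  simp

theorem det_lift_ne {d : ℕ} {S : Finset (EuclideanSpace ℝ (Fin d))} (hS : GenPos S)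
    (f : Fin (d + 1) → S) (hf : Function.Injective f) :
    Matrix.det (Matrix.of fun j => lift (f j).1) ≠ 0 := by
  classical
  intro h0
  obtain ⟨v, hv0, hv⟩ := Matrix.exists_mulVec_eq_zero_iff.2 h0
  set a : EuclideanSpace ℝ (Fin d) := WithLp.toLp 2 (fun i => v i.castSucc) with ha
  have hrow : ∀ j, inner ℝ a (f j).1 = - v (Fin.last d) := by
    intro j
    have h1 := congrFun hv j
    have h2 : lift (f j).1 ⬝ᵥ v = 0 := h1
    rw [dotProduct, Fin.sum_univ_castSucc, lift_last, one_mul] at h2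
    simp_rw [lift_castSucc] at h2
    have h3 : inner ℝ a (f j).1 = ∑ i : Fin d, (f j).1 i * v i.castSucc := by
      rw [PiLp.inner_apply]
      refine Finset.sum_congr rfl fun i _ => ?_
      simp [ha]
    rw [h3]; linarith
  by_cases ha0 : a = 0
  · have h4 : v (Fin.last d) = 0 := by
      have := hrow 0
      rw [ha0, inner_zero_left] at this
      linarith
    apply hv0
    ext i
    refine Fin.lastCases h4 (fun i => ?_) i
    have := congrArg (fun x : EuclideanSpace ℝ (Fin d) => x i) ha0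
    simpa [ha] using this
  · obtain ⟨p, hp, hpc⟩ := hS a (-v (Fin.last d)) ha0
      (univ.image fun j => (f j).1) (by
        intro x hx
        obtain ⟨j, -, rfl⟩ := mem_image.1 hx
        exact (f j).2) (by
        rw [card_image_of_injective univ (f := fun j => (f j).1)
          (fun i j hij => hf (Subtype.ext hij)), card_univ, Fintype.card_fin])
    obtain ⟨j, -, rfl⟩ := mem_image.1 hp
    exact hpc (hrow j)

/-- Clusters of points in general position in affine space. -/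
theorem cluster_points (d N : ℕ) (M : ℝ) (hM : 1 ≤ M) :
    ∃ n₀ : ℕ, ∀ S : Finset (EuclideanSpace ℝ (Fin d)), GenPos S → n₀ < S.card →
      ∃ (θ : Fin (d + 1) → Fin (d + 1) → ℝ)
        (B : Fin (d + 1) → Finset (EuclideanSpace ℝ (Fin d))),
        (∀ b, B b ⊆ S) ∧ (∀ b, N ≤ (B b).card) ∧
        ∀ b, ∀ p ∈ B b, 0 < θ b ⬝ᵥ lift p ∧ ∀ j ≠ b, M * |θ j ⬝ᵥ lift p| ≤ θ b ⬝ᵥ lift p := by
  classical
  obtain ⟨n₀, hn⟩ := cluster (d + 1) N (Nat.succ_pos d) M hM
  refine ⟨n₀, fun S hS hcard => ?_⟩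
  obtain ⟨θ, B, hB, h⟩ := hn S (fun x => lift x.1) (fun f hf => det_lift_ne hS f hf)
    (by rwa [Fintype.card_coe])
  refine ⟨θ, fun b => (B b).map (Function.Embedding.subtype _), fun b => ?_, fun b => ?_,
    fun b p hp => ?_⟩
  · intro p hp
    obtain ⟨x, -, rfl⟩ := mem_map.1 hp
    exact x.2
  · rw [card_map]; exact hB b
  · obtain ⟨x, hx, rfl⟩ := mem_map.1 hp
    exact h b x hx

theorem convex_pos {d : ℕ} (φ : Fin (d + 1) → ℝ) :
    Convex ℝ {p : EuclideanSpace ℝ (Fin d) | 0 < φ ⬝ᵥ lift p} := by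
  have h1 : Convex ℝ {y : Fin (d + 1) → ℝ | 0 < φ ⬝ᵥ y} := by
    have h2 := (convex_Ioi (0 : ℝ)).linear_preimage (dotProductBilin ℝ ℝ φ)
    exact h2
  exact h1.affine_preimage lift

/-- the class of the point set `S` with colour `i` -/
def cls {d : ℕ} {V : Type*} (S : Finset (EuclideanSpace ℝ (Fin d)))
    (P : EuclideanSpace ℝ (Fin d) → V) (i : V) : Set (EuclideanSpace ℝ (Fin d)) :=
  {p | p ∈ S ∧ P p = i}

/-- the partition of `S` into the classes of `P` consists of nonempty classes,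
and its nerve is `K` -/
def NerveIs {d : ℕ} {V : Type*} (K : AbstractSimplicialComplex V)
    (S : Finset (EuclideanSpace ℝ (Fin d))) (P : EuclideanSpace ℝ (Fin d) → V) : Prop :=
  (∀ i, (cls S P i).Nonempty) ∧
    ∀ I : Finset V, I.Nonempty →
      (I ∈ K.faces ↔ (⋂ i ∈ I, convexHull ℝ (cls S P i)).Nonempty)

/-- `K` is `d`-Tverberg -/
def IsTverberg {V : Type*} (d : ℕ) (K : AbstractSimplicialComplex V) : Prop :=
  ∃ N : ℕ, ∀ S : Finset (EuclideanSpace ℝ (Fin d)), GenPos S → N < S.card →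
    ∃ P : EuclideanSpace ℝ (Fin d) → V, NerveIs K S P

open Filter Topology in
theorem ev_ne {α β : ℝ} (hβ : β ≠ 0) : ∀ᶠ t : ℝ in 𝓝[>] 0, α + t * β ≠ 0 := by
  by_cases hα : α = 0
  · filter_upwards [self_mem_nhdsWithin] with t ht
    rw [hα, zero_add]
    exact mul_ne_zero (ne_of_gt ht) hβ
  · have h : Tendsto (fun t : ℝ => α + t * β) (𝓝 0) (𝓝 (α + 0 * β)) :=
      (continuous_const.add (continuous_id.mul continuous_const)).tendsto 0
    rw [zero_mul, add_zero] at h
    exact (h.eventually_ne hα).filter_mono nhdsWithin_le_nhds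

open Filter Topology in
theorem ev_pos {α β : ℝ} (hα : 0 < α) : ∀ᶠ t : ℝ in 𝓝[>] 0, 0 < α + t * β := by
  have h : Tendsto (fun t : ℝ => α + t * β) (𝓝 0) (𝓝 (α + 0 * β)) :=
    (continuous_const.add (continuous_id.mul continuous_const)).tendsto 0
  rw [zero_mul, add_zero] at h
  exact (h.eventually (lt_mem_nhds hα)).filter_mono nhdsWithin_le_nhds

open Filter Topology in
theorem assembly {d : ℕ} {V : Type*} [Fintype V] [Nonempty V] (K : AbstractSimplicialComplex V)
    (σ : Fin (d + 1) → Finset V) (hσ : ∀ b, σ b ∈ K.faces)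
    (hcov : ∀ I ∈ K.faces, ∃ b, I ⊆ σ b) : IsTverberg d K := by
  classical
  set m : ℕ := Fintype.card V with hm
  have hm1 : 1 ≤ m := Fintype.card_pos
  set M : ℝ := 2 * m * (d + 1) + 1 with hM
  have hm1' : (1 : ℝ) ≤ m := by exact_mod_cast hm1
  have hM1 : 1 < M := by
    rw [hM]
    have : (0 : ℝ) < 2 * m * (d + 1) := by positivity
    linarith
  obtain ⟨n₀, hn⟩ := cluster_points d ((m - 1) * (d + 1) + 1) M hM1.le
  refine ⟨n₀, fun S hS hcard => ?_⟩
  obtain ⟨θ, B, hBS, hBc, hB⟩ := hn S hS hcard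
  -- disjointness
  have hdisj : ∀ b b' p, p ∈ B b → p ∈ B b' → b = b' := by
    intro b b' p hp hp'
    by_contra hne
    obtain ⟨h1, h2⟩ := hB b p hp
    obtain ⟨h3, h4⟩ := hB b' p hp'
    have h5 := h2 b' (Ne.symm hne)
    have h6 := h4 b hne
    rw [abs_of_pos h3] at h5
    rw [abs_of_pos h1] at h6
    nlinarith [mul_lt_mul_of_pos_right hM1 h1, mul_lt_mul_of_pos_right hM1 h3]
  set F : Fin (d + 1) → EuclideanSpace ℝ (Fin d) → ℝ := fun b p => θ b ⬝ᵥ lift p with hF
  set X : V → EuclideanSpace ℝ (Fin d) → ℝ := fun i p => ∑ b with i ∈ σ b, F b p with hX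
  -- block inequality
  have hblock : ∀ b, ∀ p ∈ B b, ∀ i ∈ σ b, ∀ τ : Finset V, ¬ τ ⊆ σ b →
      0 < ∑ j ∈ τ, (X i p - X j p) := by
    intro b p hp i hi τ hτ
    obtain ⟨h1, h2⟩ := hB b p hp
    change 0 < F b p at h1
    change ∀ j ≠ b, M * |F j p| ≤ F b p at h2
    set R : ℝ := ∑ b' ∈ univ.erase b, |F b' p| with hR
    have hR0 : 0 ≤ R := Finset.sum_nonneg fun _ _ => abs_nonneg _
    have hMR : M * R ≤ d * F b p := by
      rw [hR, Finset.mul_sum]
      calc ∑ b' ∈ univ.erase b, M * |F b' p| ≤ ∑ b' ∈ univ.erase b, F b p :=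
            Finset.sum_le_sum fun j hj => h2 j (ne_of_mem_erase hj)
        _ = d * F b p := by
          rw [sum_const, card_erase_of_mem (mem_univ _), card_univ, Fintype.card_fin, nsmul_eq_mul]
          simp
    have hrest : ∀ j, |∑ b' ∈ (univ.filter fun b' => j ∈ σ b').erase b, F b' p| ≤ R := by
      intro j
      refine (abs_sum_le_sum_abs _ _).trans ?_
      exact Finset.sum_le_sum_of_subset_of_nonneg (erase_subset_erase _ (subset_univ _))
        fun _ _ _ => abs_nonneg _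
    have hin : ∀ j, j ∈ σ b → |X j p - F b p| ≤ R := by
      intro j hj
      have h3 : X j p = F b p + ∑ b' ∈ (univ.filter fun b' => j ∈ σ b').erase b, F b' p := by
        exact (Finset.add_sum_erase (univ.filter fun b' => j ∈ σ b') (fun b' => F b' p)
          (by simpa using hj)).symm
      rw [h3, add_sub_cancel_left]
      exact hrest j
    have hout : ∀ j, j ∉ σ b → |X j p| ≤ R := by
      intro j hj
      have h3 : X j p = ∑ b' ∈ (univ.filter fun b' => j ∈ σ b').erase b, F b' p := by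
        show ∑ b with j ∈ σ b, F b p = _
        rw [Finset.erase_eq_of_notMem]
        simpa using hj
      rw [h3]
      exact hrest j
    have hXi := abs_le.1 (hin i hi)
    have hle : ∀ j ∈ τ, (if j ∈ σ b then 0 else F b p) - 2 * R ≤ X i p - X j p := by
      intro j _
      split_ifs with hj
      · have := abs_le.1 (hin j hj)
        linarith
      · have := abs_le.1 (hout j hj)
        linarith
    have hsum := Finset.sum_le_sum hle
    rw [Finset.sum_sub_distrib, sum_const, nsmul_eq_mul] at hsum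
    obtain ⟨j₀, hj₀, hj₁⟩ := Finset.not_subset.1 hτ
    have h4 : F b p ≤ ∑ j ∈ τ, (if j ∈ σ b then 0 else F b p) := by
      calc F b p = (if j₀ ∈ σ b then 0 else F b p) := by rw [if_neg hj₁]
        _ ≤ _ := Finset.single_le_sum (f := fun j => if j ∈ σ b then 0 else F b p)
          (fun j _ => by split_ifs; exacts [le_rfl, h1.le]) hj₀
    have h5 : (τ.card : ℝ) ≤ m := by
      rw [hm]; exact_mod_cast Finset.card_le_univ τ
    have h6 : 2 * m * R < F b p := by
      have hMpos : 0 < M := by linarith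
      by_contra hcon
      push Not at hcon
      have h7 : M * F b p ≤ 2 * m * (d * F b p) := by
        calc M * F b p ≤ M * (2 * m * R) := mul_le_mul_of_nonneg_left hcon hMpos.le
          _ = 2 * m * (M * R) := by ring
          _ ≤ _ := mul_le_mul_of_nonneg_left hMR (by positivity)
      rw [hM] at h7
      nlinarith [mul_pos (by linarith : (0 : ℝ) < m) h1]
    have h7 : (τ.card : ℝ) * (2 * R) ≤ m * (2 * R) :=
      mul_le_mul_of_nonneg_right h5 (by linarith)
    linarith
  -- perturbation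
  obtain ⟨e, he⟩ : ∃ e : V → ℝ, Function.Injective e :=
    ⟨fun v => ((Fintype.equivFin V v : ℕ) : ℝ), fun v w h => by
      have h0 : ((Fintype.equivFin V v : ℕ) : ℝ) = ((Fintype.equivFin V w : ℕ) : ℝ) := h
      have h1 : (Fintype.equivFin V v : ℕ) = (Fintype.equivFin V w : ℕ) := by exact_mod_cast h0
      exact (Fintype.equivFin V).injective (Fin.ext h1)⟩
  have hev1 : ∀ᶠ t : ℝ in 𝓝[>] 0, ∀ p ∈ S, ∀ i j : V, i ≠ j →
      (X i p - X j p) + t * (e i - e j) ≠ 0 := by
    rw [Filter.eventually_all_finset]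
    intro p _
    rw [Filter.eventually_all]
    intro i
    rw [Filter.eventually_all]
    intro j
    by_cases hij : i = j
    · exact Filter.Eventually.of_forall fun t h => absurd hij h
    · filter_upwards [ev_ne (α := X i p - X j p) (sub_ne_zero.2 (fun h => hij (he h)))] with t ht _
      exact ht
  have hev2 : ∀ᶠ t : ℝ in 𝓝[>] 0, ∀ b, ∀ p ∈ B b, ∀ i : V, ∀ τ : Finset V, i ∈ σ b → ¬ τ ⊆ σ b →
      0 < ∑ j ∈ τ, (X i p - X j p) + t * ∑ j ∈ τ, (e i - e j) := by
    rw [Filter.eventually_all]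
    intro b
    rw [Filter.eventually_all_finset]
    intro p hp
    rw [Filter.eventually_all]
    intro i
    rw [Filter.eventually_all]
    intro τ
    by_cases hi : i ∈ σ b
    · by_cases hτ : τ ⊆ σ b
      · exact Filter.Eventually.of_forall fun t _ h => absurd hτ h
      · filter_upwards [ev_pos (β := ∑ j ∈ τ, (e i - e j)) (hblock b p hp i hi τ hτ)]
          with t ht _ _
        exact ht
    · exact Filter.Eventually.of_forall fun t h => absurd h hi
  obtain ⟨t, ht1, ht2⟩ := (hev1.and hev2).exists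
  -- perturbed functions
  set Y : V → Fin (d + 1) → ℝ := fun i =>
    (∑ b with i ∈ σ b, θ b) + (t * e i) • (Pi.single (Fin.last d) (1 : ℝ)) with hY
  have hYX : ∀ i p, Y i ⬝ᵥ lift p = X i p + t * e i := by
    intro i p
    show ((∑ b with i ∈ σ b, θ b) + (t * e i) • (Pi.single (Fin.last d) (1 : ℝ))) ⬝ᵥ lift p = _
    rw [add_dotProduct, smul_dotProduct, single_one_dotProduct, lift_last, sum_dotProduct,
      smul_eq_mul, mul_one]
  have hmax : ∀ p, ∃ i, ∀ j, Y j ⬝ᵥ lift p ≤ Y i ⬝ᵥ lift p := fun p =>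
    Finite.exists_max fun i => Y i ⬝ᵥ lift p
  choose am ham using hmax
  -- Tverberg in the blocks
  have htv : ∀ b, ∃ (c : EuclideanSpace ℝ (Fin d) → V) (q : EuclideanSpace ℝ (Fin d)),
      (∀ p, c p ∈ σ b) ∧ ∀ i ∈ σ b, q ∈ convexHull ℝ {x | x ∈ B b ∧ c x = i} := by
    intro b
    have hne : (σ b).Nonempty := (K.isRelLowerSet_faces (hσ b)).1
    have hc1 : 1 ≤ (σ b).card := hne.card_pos
    obtain ⟨c, q, hq⟩ := Pool.Agent.Helper873.Birch.tverberg (σ b).card hc1 (B b) (by
      refine le_trans ?_ (hBc b)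
      have : (σ b).card ≤ m := Finset.card_le_univ _
      gcongr)
    refine ⟨fun p => ((σ b).equivFin.symm (c p)).1, q, fun p => ((σ b).equivFin.symm (c p)).2,
      fun i hi => ?_⟩
    refine convexHull_mono ?_ (hq ((σ b).equivFin ⟨i, hi⟩))
    rintro x ⟨hx, hcx⟩
    refine ⟨hx, ?_⟩
    show ((σ b).equivFin.symm (c x)).1 = i
    rw [hcx, Equiv.symm_apply_apply]
  choose c q hcσ hq using htv
  set P : EuclideanSpace ℝ (Fin d) → V := fun p =>
    if h : ∃ b, p ∈ B b then c h.choose p else am p with hP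
  have hPb : ∀ b, ∀ p ∈ B b, P p = c b p := by
    intro b p hp
    have h : ∃ b, p ∈ B b := ⟨b, hp⟩
    show (if h : ∃ b, p ∈ B b then c h.choose p else am p) = _
    rw [dif_pos h, hdisj _ _ p h.choose_spec hp]
  have hPn : ∀ p, (¬ ∃ b, p ∈ B b) → P p = am p := by
    intro p hp
    show (if h : ∃ b, p ∈ B b then c h.choose p else am p) = _
    rw [dif_neg hp]
  have hsub : ∀ b, ∀ i ∈ σ b, q b ∈ convexHull ℝ (cls S P i) := by
    intro b i hi
    refine convexHull_mono ?_ (hq b i hi)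
    rintro x ⟨hx, hcx⟩
    exact ⟨hBS b hx, by rw [hPb b x hx, hcx]⟩
  refine ⟨P, fun i => ?_, fun I hI => ⟨fun hIK => ?_, fun hne => ?_⟩⟩
  · obtain ⟨b, hb⟩ := hcov {i} (K.singleton_mem i)
    have := hsub b i (hb (mem_singleton_self i))
    exact convexHull_nonempty_iff.1 ⟨_, this⟩
  · obtain ⟨b, hb⟩ := hcov I hIK
    exact ⟨q b, Set.mem_iInter₂.2 fun i hi => hsub b i (hb hi)⟩
  · by_contra hIK
    obtain ⟨z, hz⟩ := hne
    rw [Set.mem_iInter₂] at hz
    have hnsub : ∀ b, ¬ I ⊆ σ b := fun b hb => hIK ((K.isRelLowerSet_faces (hσ b)).2 hb hI)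
    have hpos : ∀ i ∈ I, 0 < (∑ j ∈ I, (Y i - Y j)) ⬝ᵥ lift z := by
      intro i hi
      have hconv := convex_pos (∑ j ∈ I, (Y i - Y j))
      refine convexHull_min ?_ hconv (hz i hi)
      rintro p ⟨hpS, hpi⟩
      show 0 < (∑ j ∈ I, (Y i - Y j)) ⬝ᵥ lift p
      rw [sum_dotProduct]
      simp_rw [sub_dotProduct]
      by_cases hpb : ∃ b, p ∈ B b
      · obtain ⟨b, hb⟩ := hpb
        have hib : i ∈ σ b := by
          rw [← hpi, hPb b p hb]; exact hcσ b p
        have h1 := ht2 b p hb i I hib (hnsub b)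
        have h2 : ∑ j ∈ I, (Y i ⬝ᵥ lift p - Y j ⬝ᵥ lift p) =
            ∑ j ∈ I, (X i p - X j p) + t * ∑ j ∈ I, (e i - e j) := by
          rw [Finset.mul_sum, ← Finset.sum_add_distrib]
          refine Finset.sum_congr rfl fun j _ => ?_
          rw [hYX, hYX]; ring
        rw [h2]; exact h1
      · rw [hPn p hpb] at hpi
        have hle : ∀ j, Y j ⬝ᵥ lift p ≤ Y i ⬝ᵥ lift p := by
          rw [← hpi]; exact ham p
        obtain ⟨j, hj, hji⟩ : ∃ j ∈ I, j ≠ i := by
          by_contra hcon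
          push Not at hcon
          apply hIK
          have : I = {i} := by
            ext j
            rw [mem_singleton]
            exact ⟨hcon j, fun h => h ▸ hi⟩
          rw [this]; exact K.singleton_mem i
        refine Finset.sum_pos' (fun j _ => sub_nonneg.2 (hle j)) ⟨j, hj, ?_⟩
        refine lt_of_le_of_ne (sub_nonneg.2 (hle j)) ?_
        have h3 := ht1 p hpS i j hji.symm
        rw [hYX, hYX]
        intro h4
        apply h3
        rw [h4]; ring
    have hsum : 0 < ∑ i ∈ I, (∑ j ∈ I, (Y i - Y j)) ⬝ᵥ lift z := Finset.sum_pos hpos hI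
    have hzero : ∑ i ∈ I, (∑ j ∈ I, (Y i - Y j)) ⬝ᵥ lift z = 0 := by
      rw [← sum_dotProduct]
      have : ∑ i ∈ I, ∑ j ∈ I, (Y i - Y j) = 0 := by
        simp_rw [Finset.sum_sub_distrib]
        rw [Finset.sum_comm, sub_self]
      rw [this, zero_dotProduct]
    linarith

/-- the facets of `K` -/
def facets {V : Type*} (K : AbstractSimplicialComplex V) : Set (Finset V) :=
  {σ | σ ∈ K.faces ∧ ∀ τ ∈ K.faces, σ ⊆ τ → τ = σ}

theorem main {V : Type*} [Fintype V] [Nonempty V] (K : AbstractSimplicialComplex V) (d : ℕ)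
    (hd : (facets K).ncard ≤ d + 1) : IsTverberg d K := by
  classical
  have hfin : (facets K).Finite := Set.toFinite _
  have hex : ∀ I ∈ K.faces, ∃ σ ∈ facets K, I ⊆ σ := by
    intro I hI
    obtain ⟨σ, hσ, hmax⟩ := (Set.toFinite {σ : Finset V | σ ∈ K.faces ∧ I ⊆ σ}).exists_maximalFor
      (fun σ => σ) _ ⟨I, hI, Subset.refl I⟩
    refine ⟨σ, ⟨hσ.1, fun τ hτ hστ => ?_⟩, hσ.2⟩
    exact Subset.antisymm (hmax ⟨hτ, hσ.2.trans hστ⟩ hστ) hστ
  obtain ⟨v⟩ := ‹Nonempty V›
  obtain ⟨σ₀, hσ₀, -⟩ := hex {v} (K.singleton_mem v)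
  have hne : (facets K).Nonempty := ⟨σ₀, hσ₀⟩
  obtain ⟨g, hg, hgs⟩ : ∃ g : Fin (d + 1) → Finset V, (∀ b, g b ∈ facets K) ∧
      ∀ σ ∈ facets K, ∃ b, g b = σ := by
    set T := hfin.toFinset with hT
    have hTc : T.card ≤ d + 1 := by
      rw [hT, ← Set.ncard_eq_toFinset_card _ hfin]; exact hd
    refine ⟨fun b => if h : (b : ℕ) < T.card then (T.equivFin.symm ⟨b, h⟩).1 else σ₀,
      fun b => ?_, fun σ hσ => ?_⟩
    · dsimp only
      split_ifs with h
      · exact hfin.mem_toFinset.1 (T.equivFin.symm ⟨b, h⟩).2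
      · exact hσ₀
    · have hσT : σ ∈ T := hfin.mem_toFinset.2 hσ
      refine ⟨⟨T.equivFin ⟨σ, hσT⟩, lt_of_lt_of_le (T.equivFin ⟨σ, hσT⟩).2 hTc⟩, ?_⟩
      dsimp only
      rw [dif_pos (T.equivFin ⟨σ, hσT⟩).2]
      simp
  have : Nonempty V := ⟨v⟩
  refine assembly K g (fun b => (hg b).1) fun I hI => ?_
  obtain ⟨σ, hσ, hIσ⟩ := hex I hI
  obtain ⟨b, rfl⟩ := hgs σ hσ
  exact ⟨b, hIσ⟩

end Pool.Agent.N11.TVK
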